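import Pool.Agent.H33.Qg3

namespace Pool.Agent.Results.MP_b62fd5_al.Q1

open Pool.Agent.H33.Qg

theorem result : ∃ (T : Type) (op : T → T → T), Infinite T ∧ Countable T ∧ IsQuasigroup op ∧
    (∀ (G : Type) [Group G], ¬Isotopic op fun x y : G => x * y) ∧
    (∀ (M : Type) (mul : M → M → M), IsMoufangLoop mul → ¬Isotopic op mul) ∧
    IsPrimitive op := by
  obtain ⟨op, h1, h2, h3⟩ := main
  exact ⟨X, op, inferInstance, inferInstance, h1, fun G _ => h2 G _
    ⟨⟨Group.mulLeft_bijective, Group.mulRight_bijective⟩, ⟨1, by simp⟩, by simp [mul_assoc]⟩,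
    h2, h3⟩

end Pool.Agent.Results.MP_b62fd5_al.Q1
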